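import Mathlib

set_option autoImplicit false

open scoped ContDiff Manifold Topology
open TopologicalSpace Set

namespace Pool.Agent.Results.MP_2dff6e_gt.PuncturedPlane

section General

variable (E : Type) [NormedAddCommGroup E] [NormedSpace ℝ E]
  (M : Type) [TopologicalSpace M] [ChartedSpace E M]

/-- The data of a field of pairings on the tangent spaces of a manifold `M` modelled on `E`
(a `2`-form, when the pairings are alternating bilinear and depend smoothly on the point). -/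
abbrev Form : Type :=
  ∀ x : M, TangentSpace 𝓘(ℝ, E) x → TangentSpace 𝓘(ℝ, E) x → ℝ

variable {E M}

/-- `f` preserves the form `σ`, that is `f^* σ = σ`. -/
def Preserves (σ : Form E M) (f : M → M) : Prop :=
  ∀ (x : M) (v w : TangentSpace 𝓘(ℝ, E) x),
    σ (f x) (mfderiv 𝓘(ℝ, E) 𝓘(ℝ, E) f x v) (mfderiv 𝓘(ℝ, E) 𝓘(ℝ, E) f x w) = σ x v w

/-- `Symp_c(M, σ)`: the diffeomorphisms `φ : M → M` (of class `C^∞`, with `C^∞` inverse) with
`φ^* σ = σ` for which the closure of `{x | φ x ≠ x}` is compact. -/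
def SympC (σ : Form E M) : Set (M ≃ₘ^∞⟮𝓘(ℝ, E), 𝓘(ℝ, E)⟯ M) :=
  {φ | Preserves σ φ ∧ IsCompact (closure {x | φ x ≠ x})}

/-- `Symp_{c,0}(M, σ)`: the `φ` that can be joined to the identity by a smooth path
`t ↦ F (t, ·)`, `0 ≤ t ≤ 1`, of elements of `Symp_c(M, σ)` all of which are the identity outside
one fixed compact set `K`. -/
def SympC0 (σ : Form E M) : Set (M ≃ₘ^∞⟮𝓘(ℝ, E), 𝓘(ℝ, E)⟯ M) :=
  {φ | ∃ (F : ℝ × M → M) (K : Set M), IsCompact K ∧
    ContMDiff (𝓘(ℝ, ℝ).prod 𝓘(ℝ, E)) 𝓘(ℝ, E) ∞ F ∧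
    (∀ x, F (0, x) = x) ∧ (∀ x, F (1, x) = φ x) ∧
    ∀ t ∈ Icc (0 : ℝ) 1, (∃ ψ ∈ SympC σ, ∀ x, F (t, x) = ψ x) ∧ ∀ x ∉ K, F (t, x) = x}

/-- A diffeomorphism as an element of the space `C(M, M)` of continuous maps, which carries the
compact-open topology, that is the topology of uniform convergence on compact subsets. -/
noncomputable def toC (φ : M ≃ₘ^∞⟮𝓘(ℝ, E), 𝓘(ℝ, E)⟯ M) : C(M, M) := ⟨φ, φ.continuous⟩

end General

/-- The punctured plane `ℂ ∖ {0}`, an open subset of the plane. -/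
def PPlane : Opens ℂ := ⟨{0}ᶜ, isOpen_compl_singleton⟩

/-- The standard area form `dx ∧ dy` on the punctured plane. -/
noncomputable def area : Form ℂ PPlane :=
  fun _ v w => (v : ℂ).re * (w : ℂ).im - (v : ℂ).im * (w : ℂ).re

/-! ### Twist maps -/

/-- The twist map `z ↦ exp(i g(|z|²)) z`. -/
noncomputable def tw (g : ℝ → ℝ) (z : ℂ) : ℂ :=
  ⟨Real.cos (g (z.re ^ 2 + z.im ^ 2)) * z.re - Real.sin (g (z.re ^ 2 + z.im ^ 2)) * z.im,
   Real.sin (g (z.re ^ 2 + z.im ^ 2)) * z.re + Real.cos (g (z.re ^ 2 + z.im ^ 2)) * z.im⟩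

lemma tw_re (g : ℝ → ℝ) (z : ℂ) : (tw g z).re =
    Real.cos (g (z.re ^ 2 + z.im ^ 2)) * z.re - Real.sin (g (z.re ^ 2 + z.im ^ 2)) * z.im := rfl

lemma tw_im (g : ℝ → ℝ) (z : ℂ) : (tw g z).im =
    Real.sin (g (z.re ^ 2 + z.im ^ 2)) * z.re + Real.cos (g (z.re ^ 2 + z.im ^ 2)) * z.im := rfl

lemma tw_sq (g : ℝ → ℝ) (z : ℂ) :
    (tw g z).re ^ 2 + (tw g z).im ^ 2 = z.re ^ 2 + z.im ^ 2 := by
  rw [tw_re, tw_im]
  have := Real.sin_sq_add_cos_sq (g (z.re ^ 2 + z.im ^ 2))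
  linear_combination (z.re ^ 2 + z.im ^ 2) * this

lemma tw_neg_tw (g : ℝ → ℝ) (z : ℂ) : tw (fun s => - g s) (tw g z) = z := by
  have h := tw_sq g z
  have h1 := Real.sin_sq_add_cos_sq (g (z.re ^ 2 + z.im ^ 2))
  apply Complex.ext
  · rw [tw_re, h, Real.cos_neg, Real.sin_neg, tw_re, tw_im]
    linear_combination z.re * h1
  · rw [tw_im, h, Real.cos_neg, Real.sin_neg, tw_re, tw_im]
    linear_combination z.im * h1

lemma tw_ne_zero (g : ℝ → ℝ) {z : ℂ} (hz : z ≠ 0) : tw g z ≠ 0 := by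
  intro h
  apply hz
  rw [← tw_neg_tw g z, h]
  apply Complex.ext <;> simp [tw]

lemma contDiff_cmk {V : Type} [NormedAddCommGroup V] [NormedSpace ℝ V] {a b : V → ℝ}
    (ha : ContDiff ℝ ∞ a) (hb : ContDiff ℝ ∞ b) :
    ContDiff ℝ ∞ (fun v => (⟨a v, b v⟩ : ℂ)) := by
  have : (fun v => (⟨a v, b v⟩ : ℂ)) = fun v => (a v : ℂ) + (b v : ℂ) * Complex.I := by
    funext v
    apply Complex.ext <;> simp
  rw [this]
  exact (Complex.ofRealCLM.contDiff.comp ha).add
    ((Complex.ofRealCLM.contDiff.comp hb).mul contDiff_const)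

/-- Joint smoothness of the twist maps. -/
lemma contDiff_tw2 {g : ℝ × ℝ → ℝ} (hg : ContDiff ℝ ∞ g) :
    ContDiff ℝ ∞ (fun p : ℝ × ℂ => tw (fun s => g (p.1, s)) p.2) := by
  have hre : ContDiff ℝ ∞ (fun p : ℝ × ℂ => p.2.re) := Complex.reCLM.contDiff.comp contDiff_snd
  have him : ContDiff ℝ ∞ (fun p : ℝ × ℂ => p.2.im) := Complex.imCLM.contDiff.comp contDiff_snd
  have hs : ContDiff ℝ ∞ (fun p : ℝ × ℂ => g (p.1, p.2.re ^ 2 + p.2.im ^ 2)) :=
    hg.comp (contDiff_fst.prodMk ((hre.pow 2).add (him.pow 2)))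
  exact contDiff_cmk (((Real.contDiff_cos.comp hs).mul hre).sub
    ((Real.contDiff_sin.comp hs).mul him)) (((Real.contDiff_sin.comp hs).mul hre).add
    ((Real.contDiff_cos.comp hs).mul him))

lemma contDiff_tw {g : ℝ → ℝ} (hg : ContDiff ℝ ∞ g) : ContDiff ℝ ∞ (tw g) := by
  have hre : ContDiff ℝ ∞ (fun z : ℂ => z.re) := Complex.reCLM.contDiff
  have him : ContDiff ℝ ∞ (fun z : ℂ => z.im) := Complex.imCLM.contDiff
  have hs : ContDiff ℝ ∞ (fun z : ℂ => g (z.re ^ 2 + z.im ^ 2)) :=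
    hg.comp ((hre.pow 2).add (him.pow 2))
  exact contDiff_cmk (((Real.contDiff_cos.comp hs).mul hre).sub
    ((Real.contDiff_sin.comp hs).mul him)) (((Real.contDiff_sin.comp hs).mul hre).add
    ((Real.contDiff_cos.comp hs).mul him))

/-- The twist maps preserve the area form. -/
lemma fderiv_tw {g : ℝ → ℝ} (hg : ContDiff ℝ ∞ g) (z v w : ℂ) :
    (fderiv ℝ (tw g) z v).re * (fderiv ℝ (tw g) z w).im -
      (fderiv ℝ (tw g) z v).im * (fderiv ℝ (tw g) z w).re = v.re * w.im - v.im * w.re := by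
  have hd : DifferentiableAt ℝ (tw g) z := (contDiff_tw hg).differentiable (by simp) z
  have hre : ∀ y : ℂ, HasFDerivAt (fun z : ℂ => z.re) Complex.reCLM y :=
    fun y => Complex.reCLM.hasFDerivAt
  have him : ∀ y : ℂ, HasFDerivAt (fun z : ℂ => z.im) Complex.imCLM y :=
    fun y => Complex.imCLM.hasFDerivAt
  have hs : HasFDerivAt (fun z : ℂ => z.re ^ 2 + z.im ^ 2)
      ((2 * z.re) • Complex.reCLM + (2 * z.im) • Complex.imCLM) z := by
    have h1 := ((hre z).pow 2).add ((him z).pow 2)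
    refine h1.congr_fderiv ?_
    ext <;> simp
  have hgd : HasDerivAt g (deriv g (z.re ^ 2 + z.im ^ 2)) (z.re ^ 2 + z.im ^ 2) :=
    (hg.differentiable (by simp) _).hasDerivAt
  set k := deriv g (z.re ^ 2 + z.im ^ 2) with hk
  have hg' : HasFDerivAt (fun z : ℂ => g (z.re ^ 2 + z.im ^ 2))
      (k • ((2 * z.re) • Complex.reCLM + (2 * z.im) • Complex.imCLM)) z :=
    hgd.comp_hasFDerivAt z hs
  have hc := hg'.cos
  have hsn := hg'.sin
  have hR := (hc.mul (hre z)).sub (hsn.mul (him z))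
  have hI := (hsn.mul (hre z)).add (hc.mul (him z))
  have eR : Complex.reCLM.comp (fderiv ℝ (tw g) z) = _ :=
    (Complex.reCLM.hasFDerivAt.comp z hd.hasFDerivAt).unique hR
  have eI : Complex.imCLM.comp (fderiv ℝ (tw g) z) = _ :=
    (Complex.imCLM.hasFDerivAt.comp z hd.hasFDerivAt).unique hI
  have eRv : ∀ u : ℂ, (fderiv ℝ (tw g) z u).re = _ := fun u => congrArg (fun L => L u) eR
  have eIv : ∀ u : ℂ, (fderiv ℝ (tw g) z u).im = _ := fun u => congrArg (fun L => L u) eI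
  rw [eRv, eRv, eIv, eIv]
  have h1 := Real.sin_sq_add_cos_sq (g (z.re ^ 2 + z.im ^ 2))
  simp
  set S := Real.sin (g (z.re ^ 2 + z.im ^ 2))
  set C := Real.cos (g (z.re ^ 2 + z.im ^ 2))
  linear_combination (v.re * w.im - v.im * w.re) * h1

/-! ### Derivatives of self-maps of the punctured plane -/

lemma hasMFDerivAt_val (x : PPlane) :
    HasMFDerivAt 𝓘(ℝ, ℂ) 𝓘(ℝ, ℂ) (Subtype.val : PPlane → ℂ) x (ContinuousLinearMap.id ℝ ℂ) := by
  have hd : MDifferentiableAt 𝓘(ℝ, ℂ) 𝓘(ℝ, ℂ) (Subtype.val : PPlane → ℂ) x :=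
    (contMDiff_subtype_val (n := 1)).mdifferentiableAt (by simp)
  have key : mfderiv 𝓘(ℝ, ℂ) 𝓘(ℝ, ℂ) (Subtype.val : PPlane → ℂ) x =
      ContinuousLinearMap.id ℝ ℂ := by
    rw [hd.mfderiv]
    have h := TopologicalSpace.Opens.chartAt_subtype_val_symm_eventuallyEq (H := ℂ) PPlane (x := x)
    have h2 : writtenInExtChartAt 𝓘(ℝ, ℂ) 𝓘(ℝ, ℂ) x (Subtype.val : PPlane → ℂ)
        =ᶠ[𝓝 (x : ℂ)] id := by
      have h3 : (writtenInExtChartAt 𝓘(ℝ, ℂ) 𝓘(ℝ, ℂ) x (Subtype.val : PPlane → ℂ)) =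
        Subtype.val ∘ (chartAt ℂ x).symm := by
        funext y
        rfl
      rw [h3]
      exact h.symm
    have h4 : (extChartAt 𝓘(ℝ, ℂ) x) x = (x : ℂ) := by
      simp
      rfl
    rw [h4]
    simp only [modelWithCornersSelf_coe, range_id, fderivWithin_univ]
    rw [h2.fderiv_eq]
    exact fderiv_id
  have := hd.hasMFDerivAt
  rw [key] at this
  exact this

lemma mfderiv_ind {f : ℂ → ℂ} (hf : ContDiff ℝ ∞ f) (F : PPlane → PPlane)
    (hF : ∀ x : PPlane, (F x : ℂ) = f x) (hFs : ContMDiff 𝓘(ℝ, ℂ) 𝓘(ℝ, ℂ) ∞ F) (x : PPlane)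
    (v : ℂ) :
    mfderiv 𝓘(ℝ, ℂ) 𝓘(ℝ, ℂ) F x v = fderiv ℝ f (x : ℂ) v := by
  have h1 : (Subtype.val : PPlane → ℂ) ∘ F = f ∘ (Subtype.val : PPlane → ℂ) := by
    funext y
    exact hF y
  have hdF : MDifferentiableAt 𝓘(ℝ, ℂ) 𝓘(ℝ, ℂ) F x := hFs.mdifferentiableAt (by simp)
  have hdf := (hf.differentiable (by simp) (x : ℂ)).hasFDerivAt.hasMFDerivAt
  have e1 := (hasMFDerivAt_val (F x)).comp x hdF.hasMFDerivAt
  have e2 := hdf.comp x (hasMFDerivAt_val x)
  rw [h1] at e1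
  have e3 := hasMFDerivAt_unique e1 e2
  exact congrArg (fun L : ℂ →L[ℝ] ℂ => L v) e3

/-! ### Twists as diffeomorphisms of the punctured plane -/

/-- The self-map of the punctured plane induced by a twist. -/
noncomputable def twP (g : ℝ → ℝ) (x : PPlane) : PPlane :=
  ⟨tw g x, tw_ne_zero g x.2⟩

lemma contMDiff_twP {g : ℝ → ℝ} (hg : ContDiff ℝ ∞ g) :
    ContMDiff 𝓘(ℝ, ℂ) 𝓘(ℝ, ℂ) ∞ (twP g) := by
  rw [← ContMDiff.subtypeVal_comp_iff]
  exact (contDiff_tw hg).contMDiff.comp contMDiff_subtype_val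

lemma twP_neg (g : ℝ → ℝ) (x : PPlane) : twP (fun s => - g s) (twP g x) = x :=
  Subtype.ext (tw_neg_tw g x)

/-- The twist as a diffeomorphism. -/
noncomputable def twD (g : ℝ → ℝ) (hg : ContDiff ℝ ∞ g) :
    PPlane ≃ₘ^∞⟮𝓘(ℝ, ℂ), 𝓘(ℝ, ℂ)⟯ PPlane where
  toFun := twP g
  invFun := twP (fun s => - g s)
  left_inv := twP_neg g
  right_inv x := by
    have := twP_neg (fun s => - g s) x
    simpa using this
  contMDiff_toFun := contMDiff_twP hg
  contMDiff_invFun := contMDiff_twP hg.neg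

lemma preserves_twD {g : ℝ → ℝ} (hg : ContDiff ℝ ∞ g) : Preserves area (twD g hg) := by
  intro x v w
  have h1 : ∀ u : ℂ, mfderiv 𝓘(ℝ, ℂ) 𝓘(ℝ, ℂ) (twD g hg) x u = fderiv ℝ (tw g) (x : ℂ) u :=
    fun u => mfderiv_ind (contDiff_tw hg) (twD g hg) (fun _ => rfl) (contMDiff_twP hg) x u
  have h2 := fderiv_tw hg (x : ℂ) v w
  unfold area
  erw [h1 v, h1 w]
  exact h2

/-- The closed annulus `a ≤ |z|² ≤ b` in the punctured plane. -/
def ann (a b : ℝ) : Set PPlane := {x | a ≤ (x : ℂ).re ^ 2 + (x : ℂ).im ^ 2 ∧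
  (x : ℂ).re ^ 2 + (x : ℂ).im ^ 2 ≤ b}

lemma isCompact_ann {a b : ℝ} (ha : 0 < a) : IsCompact (ann a b) := by
  rw [Subtype.isCompact_iff]
  have h1 : ((↑) '' (ann a b) : Set ℂ) =
      {z : ℂ | a ≤ z.re ^ 2 + z.im ^ 2 ∧ z.re ^ 2 + z.im ^ 2 ≤ b} := by
    ext z
    constructor
    · rintro ⟨x, hx, rfl⟩
      exact hx
    · intro hz
      refine ⟨⟨z, ?_⟩, hz, rfl⟩
      rintro rfl
      have := hz.1
      simp at this
      linarith
  rw [h1]
  apply Metric.isCompact_of_isClosed_isBounded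
  · have hc : Continuous fun z : ℂ => z.re ^ 2 + z.im ^ 2 := by fun_prop
    exact (isClosed_le continuous_const hc).inter (isClosed_le hc continuous_const)
  · rw [Metric.isBounded_iff_subset_closedBall 0]
    refine ⟨Real.sqrt b, ?_⟩
    intro z hz
    rw [mem_closedBall_zero_iff, Complex.norm_eq_sqrt_sq_add_sq]
    exact Real.sqrt_le_sqrt hz.2

lemma isClosed_ann (a b : ℝ) : IsClosed (ann a b) := by
  have hc : Continuous fun z : PPlane => (z : ℂ).re ^ 2 + (z : ℂ).im ^ 2 := by fun_prop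
  exact (isClosed_le continuous_const hc).inter (isClosed_le hc continuous_const)

lemma tw_eq_self {g : ℝ → ℝ} {z : ℂ} {n : ℤ} (h : g (z.re ^ 2 + z.im ^ 2) = n * (2 * Real.pi)) :
    tw g z = z := by
  have hc : Real.cos (g (z.re ^ 2 + z.im ^ 2)) = 1 := by
    rw [h]
    exact Real.cos_int_mul_two_pi n
  have hs : Real.sin (g (z.re ^ 2 + z.im ^ 2)) = 0 := by
    rw [h]
    have := Real.sin_int_mul_pi (n * 2)
    rw [← this]
    congr 1
    push_cast
    ring
  apply Complex.ext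
  · rw [tw_re, hc, hs]; ring
  · rw [tw_im, hc, hs]; ring

/-- If `g` is an integer multiple of `2π` off `(a, b)`, the twist has compact support. -/
lemma twD_mem_sympC {g : ℝ → ℝ} (hg : ContDiff ℝ ∞ g) {a b : ℝ} (ha : 0 < a)
    (h : ∀ s, s < a ∨ b < s → ∃ n : ℤ, g s = n * (2 * Real.pi)) : twD g hg ∈ SympC area := by
  refine ⟨preserves_twD hg, ?_⟩
  have hsub : {x | twD g hg x ≠ x} ⊆ ann a b := by
    intro x hx
    by_contra hxa
    apply hx
    have : (x : ℂ).re ^ 2 + (x : ℂ).im ^ 2 < a ∨ b < (x : ℂ).re ^ 2 + (x : ℂ).im ^ 2 := by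
      by_contra hcon
      push Not at hcon
      exact hxa hcon
    obtain ⟨n, hn⟩ := h _ this
    exact Subtype.ext (tw_eq_self hn)
  exact (isCompact_ann ha).of_isClosed_subset isClosed_closure
    ((isClosed_ann a b).closure_subset_iff.mpr hsub)

/-- The twist path: if `g` vanishes off `(a, b)` then the twist is in `Symp_{c,0}`. -/
lemma twD_mem_sympC0 {g : ℝ → ℝ} (hg : ContDiff ℝ ∞ g) {a b : ℝ} (ha : 0 < a)
    (h : ∀ s, s < a ∨ b < s → g s = 0) : twD g hg ∈ SympC0 area := by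
  refine ⟨fun p => twP (fun s => p.1 * g s) p.2, ann a b, isCompact_ann ha, ?_, ?_, ?_, ?_⟩
  · rw [← ContMDiff.subtypeVal_comp_iff]
    have h1 : ContDiff ℝ ∞ (fun p : ℝ × ℂ => tw (fun s => p.1 * g s) p.2) :=
      contDiff_tw2 (g := fun q : ℝ × ℝ => q.1 * g q.2)
        (contDiff_fst.mul (hg.comp contDiff_snd))
    have hv : ContMDiff 𝓘(ℝ, ℂ) 𝓘(ℝ, ℂ) ∞ (Subtype.val : PPlane → ℂ) := contMDiff_subtype_val
    have hf : ContMDiff (𝓘(ℝ, ℝ).prod 𝓘(ℝ, ℂ)) 𝓘(ℝ, ℝ) ∞ (Prod.fst : ℝ × PPlane → ℝ) :=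
      contMDiff_fst
    have hs : ContMDiff (𝓘(ℝ, ℝ).prod 𝓘(ℝ, ℂ)) 𝓘(ℝ, ℂ) ∞ (Prod.snd : ℝ × PPlane → PPlane) :=
      contMDiff_snd
    have hvs : ContMDiff (𝓘(ℝ, ℝ).prod 𝓘(ℝ, ℂ)) 𝓘(ℝ, ℂ) ∞
        (fun p : ℝ × PPlane => (p.2 : ℂ)) := hv.comp hs
    have h3 : ContMDiff (𝓘(ℝ, ℝ).prod 𝓘(ℝ, ℂ)) 𝓘(ℝ, ℝ × ℂ) ∞
        (fun p : ℝ × PPlane => (p.1, (p.2 : ℂ))) := hf.prodMk_space hvs
    have h4 := h1.contMDiff.comp h3
    exact h4
  · intro x
    apply Subtype.ext
    change tw (fun s => 0 * g s) (x : ℂ) = x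
    exact tw_eq_self (g := fun s => 0 * g s) (n := 0) (by simp)
  · intro x
    apply Subtype.ext
    change tw (fun s => 1 * g s) x = tw g x
    simp
  · intro t _
    refine ⟨⟨twD (fun s => t * g s) (contDiff_const.mul hg), ?_, fun x => rfl⟩, ?_⟩
    · apply twD_mem_sympC _ ha (b := b)
      intro s hs
      exact ⟨0, by simp [h s hs]⟩
    · intro x hx
      apply Subtype.ext
      change tw (fun s => t * g s) (x : ℂ) = x
      apply tw_eq_self (g := fun s => t * g s) (n := 0)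
      have : (x : ℂ).re ^ 2 + (x : ℂ).im ^ 2 < a ∨ b < (x : ℂ).re ^ 2 + (x : ℂ).im ^ 2 := by
        by_contra hcon
        push Not at hcon
        exact hx hcon
      simp [h _ this]

/-! ### The two profiles -/

/-- The profile of the Dehn twist: `2π` on `(-∞, 1]`, `0` on `[2, ∞)`. -/
noncomputable def prof (s : ℝ) : ℝ := 2 * Real.pi * (1 - Real.smoothTransition (s - 1))

/-- The profile of the approximants: `0` on `(-∞, 1/c]`, equal to `prof` on `[2/c, ∞)`. -/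
noncomputable def profc (c s : ℝ) : ℝ := Real.smoothTransition (c * s - 1) * prof s

lemma contDiff_prof : ContDiff ℝ ∞ prof :=
  contDiff_const.mul (contDiff_const.sub
    (Real.smoothTransition.contDiff.comp (contDiff_id.sub contDiff_const)))

lemma contDiff_profc (c : ℝ) : ContDiff ℝ ∞ (profc c) :=
  (Real.smoothTransition.contDiff.comp ((contDiff_const.mul contDiff_id).sub
    contDiff_const)).mul contDiff_prof

lemma prof_of_le {s : ℝ} (h : s ≤ 1) : prof s = 2 * Real.pi := by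
  rw [prof, Real.smoothTransition.zero_of_nonpos (by linarith)]
  ring

lemma prof_of_ge {s : ℝ} (h : 2 ≤ s) : prof s = 0 := by
  rw [prof, Real.smoothTransition.one_of_one_le (by linarith)]
  ring

lemma profc_eq {c s : ℝ} (hc : 0 < c) (h : 2 / c ≤ s) : profc c s = prof s := by
  have : 2 ≤ c * s := by
    rw [div_le_iff₀ hc] at h
    linarith
  rw [profc, Real.smoothTransition.one_of_one_le (by linarith), one_mul]

lemma profc_zero {c s : ℝ} (hc : 0 < c) (h : s < 1 / c ∨ 2 < s) : profc c s = 0 := by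
  rcases h with h | h
  · have : c * s < 1 := by
      rw [lt_div_iff₀ hc] at h
      linarith
    rw [profc, Real.smoothTransition.zero_of_nonpos (by linarith), zero_mul]
  · rw [profc, prof_of_ge h.le, mul_zero]

/-- The Dehn twist. -/
noncomputable def dehn : PPlane ≃ₘ^∞⟮𝓘(ℝ, ℂ), 𝓘(ℝ, ℂ)⟯ PPlane := twD prof contDiff_prof

lemma dehn_mem : dehn ∈ SympC area := by
  apply twD_mem_sympC _ one_pos (b := 2)
  rintro s (h | h)
  · exact ⟨1, by rw [prof_of_le h.le]; simp⟩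
  · exact ⟨0, by rw [prof_of_ge h.le]; simp⟩

/-- The approximants. -/
noncomputable def appr (k : ℕ) : PPlane ≃ₘ^∞⟮𝓘(ℝ, ℂ), 𝓘(ℝ, ℂ)⟯ PPlane :=
  twD (profc (k + 1)) (contDiff_profc _)

lemma appr_mem (k : ℕ) : appr k ∈ SympC0 area := by
  have hk : (0 : ℝ) < k + 1 := by positivity
  exact twD_mem_sympC0 _ (a := 1 / ((k : ℝ) + 1)) (by positivity) (b := 2)
    fun s hs => profc_zero hk hs

lemma appr_eq (k : ℕ) {x : PPlane} (hx : 2 / ((k : ℝ) + 1) ≤ (x : ℂ).re ^ 2 + (x : ℂ).im ^ 2) :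
    appr k x = dehn x := by
  have hk : (0 : ℝ) < k + 1 := by positivity
  apply Subtype.ext
  change tw (profc (k + 1)) x = tw prof x
  unfold tw
  rw [profc_eq hk hx]

/-! ### The Dehn twist is not isotopic to the identity -/

lemma const_of_exp_eq_one {X : Type} [TopologicalSpace X] [PreconnectedSpace X] {f : X → ℂ}
    (hf : Continuous f) (h : ∀ x, Complex.exp (f x) = 1) (x y : X) : f x = f y := by
  have hint : ∀ x, ∃ n : ℤ, f x = n * (2 * Real.pi * Complex.I) :=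
    fun x => Complex.exp_eq_one_iff.1 (h x)
  choose n hn using hint
  have hpi : (Real.pi : ℝ) ≠ 0 := Real.pi_ne_zero
  have h1 : Continuous n := by
    rw [Int.isClosedEmbedding_coe_real.isInducing.continuous_iff]
    have : ((fun m : ℤ => (m : ℝ)) ∘ n) = fun x => (f x).im / (2 * Real.pi) := by
      funext x
      rw [Function.comp_apply, hn x]
      simp
    rw [this]
    exact (Complex.continuous_im.comp hf).div_const _
  rw [hn x, hn y, PreconnectedSpace.constant inferInstance h1 (x := x) (y := y)]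

/-- The point `exp r` of the punctured plane. -/
noncomputable def pt (r : ℝ) : PPlane :=
  ⟨(Real.exp r : ℂ), by
    intro h
    exact (Real.exp_pos r).ne' (Complex.ofReal_eq_zero.1 h)⟩

lemma continuous_pt : Continuous pt := by
  apply Continuous.subtype_mk
  exact Complex.continuous_ofReal.comp Real.continuous_exp

lemma pt_re (r : ℝ) : (pt r : ℂ).re = Real.exp r := Complex.ofReal_re _

lemma pt_im (r : ℝ) : (pt r : ℂ).im = 0 := Complex.ofReal_im _

lemma dehn_not_mem : dehn ∉ SympC0 area := by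
  rintro ⟨F, K, hK, hF, hF0, hF1, hFt⟩
  have hFc : Continuous F := hF.continuous
  -- the compact set `K` is contained in an annulus
  obtain ⟨A, hA⟩ : ∃ A : ℝ, ∀ x ∈ K, ‖Real.log ‖(x : ℂ)‖‖ ≤ A := by
    apply hK.exists_bound_of_continuousOn
    apply Continuous.continuousOn
    apply Continuous.log
    · fun_prop
    · intro x
      exact norm_ne_zero_iff.2 x.2
  have hptK : ∀ r, A < |r| → pt r ∉ K := by
    intro r hr hmem
    have := hA _ hmem
    have e : ‖(pt r : ℂ)‖ = Real.exp r := by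
      change ‖((Real.exp r : ℝ) : ℂ)‖ = _
      rw [Complex.norm_real, Real.norm_eq_abs, abs_of_pos (Real.exp_pos r)]
    rw [e, Real.log_exp, Real.norm_eq_abs] at this
    linarith
  let cl : ℝ → ℝ := fun t => (projIcc (0 : ℝ) 1 zero_le_one t : ℝ)
  have hcl : Continuous cl := continuous_subtype_val.comp continuous_projIcc
  have hclm : ∀ t, cl t ∈ Icc (0 : ℝ) 1 := fun t => (projIcc (0 : ℝ) 1 zero_le_one t).2
  have hcl0 : cl 0 = 0 := by simp [cl]
  have hcl1 : cl 1 = 1 := by simp [cl]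
  let G : ℝ × ℝ → ℂ := fun p => (F (cl p.1, pt p.2) : ℂ) / (pt p.2 : ℂ)
  have hGc : Continuous G := by
    apply Continuous.div
    · exact continuous_subtype_val.comp (hFc.comp ((hcl.comp continuous_fst).prodMk
        (continuous_pt.comp continuous_snd)))
    · exact continuous_subtype_val.comp (continuous_pt.comp continuous_snd)
    · intro p
      exact (pt p.2).2
  have hG0 : ∀ p, G p ≠ 0 := fun p => div_ne_zero (F (cl p.1, pt p.2)).2 (pt p.2).2
  have hsc : IsSimplyConnected (univ : Set (ℝ × ℝ)) := by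
    have : ContractibleSpace (univ : Set (ℝ × ℝ)) :=
      convex_univ.contractibleSpace ⟨0, mem_univ _⟩
    exact (inferInstance : SimplyConnectedSpace (univ : Set (ℝ × ℝ)))
  obtain ⟨h, hhc, hh⟩ := Complex.exists_continuousOn_eqOn_exp_comp hsc isOpen_univ
    hGc.continuousOn (by rintro ⟨p, -, hp⟩; exact hG0 p hp)
  have hhc' : Continuous h := continuousOn_univ.1 hhc
  have hh' : ∀ p, Complex.exp (h p) = G p := fun p => hh (mem_univ p)
  -- the value of `G` on the four sides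
  have hs0 : ∀ r, G (0, r) = 1 := by
    intro r
    change (F (cl 0, pt r) : ℂ) / (pt r : ℂ) = 1
    rw [hcl0, hF0]
    exact div_self (pt r).2
  have hsr : ∀ r, A < |r| → ∀ t, G (t, r) = 1 := by
    intro r hr t
    change (F (cl t, pt r) : ℂ) / (pt r : ℂ) = 1
    rw [(hFt (cl t) (hclm t)).2 (pt r) (hptK r hr)]
    exact div_self (pt r).2
  have hs1 : ∀ r, G (1, r) = Complex.exp (prof (Real.exp r ^ 2) * Complex.I) := by
    intro r
    change (F (cl 1, pt r) : ℂ) / (pt r : ℂ) = _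
    rw [hcl1, hF1]
    change tw prof (pt r) / (pt r : ℂ) = _
    rw [div_eq_iff (pt r).2, Complex.exp_mul_I, ← Complex.ofReal_cos, ← Complex.ofReal_sin]
    apply Complex.ext
    · rw [tw_re, pt_re, pt_im]
      simp [pt_re, pt_im]
      rfl
    · rw [tw_im, pt_re, pt_im]
      simp [pt_re, pt_im]
      rfl
  -- two radii outside the annulus
  obtain ⟨R, hRA, hR1⟩ : ∃ R : ℝ, A < R ∧ 1 ≤ R := ⟨max (A + 1) 1, by
    have := le_max_left (A + 1) 1
    linarith, le_max_right _ _⟩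
  have hRp : A < |R| := lt_of_lt_of_le hRA (le_abs_self R)
  have hRn : A < |(-R)| := by rw [abs_neg]; exact hRp
  have c0 : ∀ r r', h (0, r) = h (0, r') := by
    intro r r'
    exact const_of_exp_eq_one (f := fun r => h (0, r)) (hhc'.comp (by fun_prop))
      (fun r => by rw [hh', hs0]) r r'
  have cr : ∀ r, A < |r| → ∀ t t', h (t, r) = h (t', r) := by
    intro r hr t t'
    exact const_of_exp_eq_one (f := fun t => h (t, r)) (hhc'.comp (by fun_prop))
      (fun t => by rw [hh', hsr r hr]) t t'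
  have hprofc : Continuous prof := contDiff_prof.continuous
  have c1 : ∀ r r', h (1, r) - prof (Real.exp r ^ 2) * Complex.I =
      h (1, r') - prof (Real.exp r' ^ 2) * Complex.I := by
    intro r r'
    refine const_of_exp_eq_one (f := fun r => h (1, r) - prof (Real.exp r ^ 2) * Complex.I)
      ?_ ?_ r r'
    · exact (hhc'.comp (by fun_prop)).sub ((Complex.continuous_ofReal.comp
        (hprofc.comp (Real.continuous_exp.pow 2))).mul continuous_const)
    · intro r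
      rw [Complex.exp_sub, hh', hs1, div_self (Complex.exp_ne_zero _)]
  have e1 : h (1, R) = h (1, -R) := by
    rw [cr R hRp 1 0, cr (-R) hRn 1 0, c0 R (-R)]
  have e2 := c1 R (-R)
  have e3 : prof (Real.exp R ^ 2) = 0 := by
    apply prof_of_ge
    have : R + 1 ≤ Real.exp R := Real.add_one_le_exp R
    nlinarith
  have e4 : prof (Real.exp (-R) ^ 2) = 2 * Real.pi := by
    apply prof_of_le
    have h1 : Real.exp (-R) ≤ 1 := Real.exp_le_one_iff.2 (by linarith)
    have h2 := Real.exp_pos (-R)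
    nlinarith
  rw [e3, e4, e1, Complex.ofReal_zero] at e2
  have e5 : ((2 * Real.pi : ℝ) : ℂ) * Complex.I = 0 := by
    linear_combination e2
  have e6 : ((2 * Real.pi : ℝ) : ℂ) ≠ 0 := by
    rw [Complex.ofReal_ne_zero]
    positivity
  exact mul_ne_zero e6 Complex.I_ne_zero e5

/-! ### Convergence -/

lemma norm_tw (g : ℝ → ℝ) (z : ℂ) : ‖tw g z‖ = ‖z‖ := by
  rw [Complex.norm_eq_sqrt_sq_add_sq, Complex.norm_eq_sqrt_sq_add_sq, tw_sq]

lemma dist_tw {g g' : ℝ → ℝ} {a : ℝ} (h : ∀ s, a ≤ s → g s = g' s) (z : ℂ) :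
    dist (tw g z) (tw g' z) ≤ 2 * Real.sqrt a := by
  by_cases hx : a ≤ z.re ^ 2 + z.im ^ 2
  · have : tw g z = tw g' z := by
      unfold tw
      rw [h _ hx]
    rw [this, dist_self]
    positivity
  · push Not at hx
    have h1 : ‖z‖ ≤ Real.sqrt a := by
      rw [Complex.norm_eq_sqrt_sq_add_sq]
      exact Real.sqrt_le_sqrt hx.le
    have h2 : dist (tw g z) (tw g' z) ≤ ‖tw g z‖ + ‖tw g' z‖ := dist_le_norm_add_norm _ _
    rw [norm_tw, norm_tw] at h2
    linarith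

lemma dist_appr (k : ℕ) (x : PPlane) :
    dist (appr k x) (dehn x) ≤ 2 * Real.sqrt (2 / ((k : ℝ) + 1)) :=
  dist_tw (fun _ hs => profc_eq (by positivity) hs) (x : ℂ)

lemma dist_appr_symm (k : ℕ) (x : PPlane) :
    dist ((appr k).symm x) (dehn.symm x) ≤ 2 * Real.sqrt (2 / ((k : ℝ) + 1)) :=
  dist_tw (g := fun s => - profc (k + 1) s) (g' := fun s => - prof s)
    (fun _ hs => by rw [profc_eq (by positivity) hs]) (x : ℂ)

lemma exists_appr {ε : ℝ} (hε : 0 < ε) : ∃ k₀ : ℕ, ∀ k ≥ k₀, ∀ x,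
    dist (appr k x) (dehn x) < ε ∧ dist ((appr k).symm x) (dehn.symm x) < ε := by
  obtain ⟨k₀, hk₀⟩ := exists_nat_gt (2 / (ε / 2) ^ 2)
  refine ⟨k₀, fun k hk x => ?_⟩
  have hk1 : (0 : ℝ) < k + 1 := by positivity
  have h1 : Real.sqrt (2 / ((k : ℝ) + 1)) < ε / 2 := by
    rw [Real.sqrt_lt' (by positivity), div_lt_iff₀ hk1]
    rw [div_lt_iff₀ (by positivity)] at hk₀
    have : (k₀ : ℝ) ≤ k := by exact_mod_cast hk
    nlinarith [sq_nonneg (ε / 2), mul_pos (half_pos hε) (half_pos hε)]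
  exact ⟨lt_of_le_of_lt (dist_appr k x) (by linarith),
    lt_of_le_of_lt (dist_appr_symm k x) (by linarith)⟩

lemma tendsto_appr : Filter.Tendsto (fun k => toC (appr k)) Filter.atTop (𝓝 (toC dehn)) := by
  rw [ContinuousMap.tendsto_iff_forall_isCompact_tendstoUniformlyOn]
  intro K _
  rw [Metric.tendstoUniformlyOn_iff]
  intro ε hε
  obtain ⟨k₀, hk₀⟩ := exists_appr hε
  filter_upwards [Filter.eventually_ge_atTop k₀] with k hk x _
  rw [dist_comm]
  exact (hk₀ k hk x).1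

/-- For the punctured plane `ℂ ∖ {0}` with `dx ∧ dy`, the group `Symp_{c,0}` is not closed in
`Symp_c` in the `C^0`-topology: a Dehn twist `φ` around the puncture is a compactly supported
symplectomorphism, is not in `Symp_{c,0}`, but lies in the closure of `Symp_{c,0}` for uniform
convergence on compact sets, and even for uniform convergence, on the whole punctured plane, of
the maps and of their inverses. -/
theorem result : ∃ φ : PPlane ≃ₘ^∞⟮𝓘(ℝ, ℂ), 𝓘(ℝ, ℂ)⟯ PPlane,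
    φ ∈ SympC area ∧ φ ∉ SympC0 area ∧
    toC φ ∈ closure (toC '' SympC0 area) ∧
    ∀ ε > 0, ∃ ψ ∈ SympC0 area, ∀ x, dist (ψ x) (φ x) < ε ∧
      dist (ψ.symm x) (φ.symm x) < ε := by
  refine ⟨dehn, dehn_mem, dehn_not_mem, ?_, ?_⟩
  · exact mem_closure_of_tendsto tendsto_appr
      (Filter.Eventually.of_forall fun k => mem_image_of_mem _ (appr_mem k))
  · intro ε hε
    obtain ⟨k₀, hk₀⟩ := exists_appr hε
    exact ⟨appr k₀, appr_mem k₀, hk₀ k₀ le_rfl⟩

end Pool.Agent.Results.MP_2dff6e_gt.PuncturedPlane
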