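import Mathlib

/-!
# `Symp_{c,0}` of a symplectic vector space is `C^0`-dense in `Symp_c`

Let `(E, ω₀)` be a symplectic vector space, for example `ℝ^{2n}` with its standard form. For an
element `φ` of `Symp_c(E, ω₀)` and `0 < r ≤ 1` the map `x ↦ φ (r • φ⁻¹ (r⁻¹ • x))` is in
`Symp_{c,0}(E, ω₀)`, its support lies in a ball that does not depend on `r`, and it converges to `φ`
uniformly on `E` as `r → 0`.
-/

set_option autoImplicit false

open scoped Manifold ContDiff Topology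
open Set TopologicalSpace

noncomputable section

namespace Pool.Agent.Results.MP_2dff6e_gt.VectorSpaceDense

/-! ## The general definitions -/

section Defs

variable (E : Type) [NormedAddCommGroup E] [NormedSpace ℝ E] (M : Type) [TopologicalSpace M]
  [ChartedSpace E M]

/-- A field of bilinear forms on the tangent spaces of a manifold `M` modelled on `E`. -/
abbrev FormField : Type :=
  (x : M) → TangentSpace 𝓘(ℝ, E) x →L[ℝ] TangentSpace 𝓘(ℝ, E) x →L[ℝ] ℝ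

variable {E M}

/-- The derivative at `y` of the inverse of the preferred chart at `x₀`. -/
def dChartSymm (x₀ : M) (y : E) : E →L[ℝ] E :=
  mfderiv 𝓘(ℝ, E) 𝓘(ℝ, E) (extChartAt 𝓘(ℝ, E) x₀).symm y

/-- The coordinate expression, in the preferred chart at `x₀`, of a field `form` of bilinear forms:
at a point `y` of the target of the chart it is the pull-back of `form` by the inverse of the
chart. -/
def localForm (form : FormField E M) (x₀ : M) (y : E) : E →L[ℝ] E →L[ℝ] ℝ :=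
  ContinuousLinearMap.bilinearComp (E := E) (F := E) (E' := E) (F' := E)
    (form ((extChartAt 𝓘(ℝ, E) x₀).symm y) : E →L[ℝ] E →L[ℝ] ℝ) (dChartSymm x₀ y) (dChartSymm x₀ y)

/-- The form is alternating. -/
def Alternating (form : FormField E M) : Prop := ∀ x v, form x v v = 0

/-- The form is non-degenerate. -/
def Nondegenerate (form : FormField E M) : Prop := ∀ x v, (∀ w, form x v w = 0) → v = 0

/-- The form is smooth: all its coordinate expressions are. -/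
def Smooth (form : FormField E M) : Prop :=
  ∀ x₀ : M, ContDiffOn ℝ ∞ (localForm form x₀) (extChartAt 𝓘(ℝ, E) x₀).target

/-- The form is closed: all its coordinate expressions have exterior derivative `0`. -/
def Closed (form : FormField E M) : Prop :=
  ∀ x₀ : M, ∀ y ∈ (extChartAt 𝓘(ℝ, E) x₀).target, ∀ u v w : E,
    fderiv ℝ (localForm form x₀) y u v w + fderiv ℝ (localForm form x₀) y v w u
      + fderiv ℝ (localForm form x₀) y w u v = 0

/-- The map `φ` preserves the form: `φ^* form = form`. -/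
def Preserves (form : FormField E M) (φ : M → M) : Prop :=
  ∀ (x : M) (u v : TangentSpace 𝓘(ℝ, E) x),
    form (φ x) (mfderiv 𝓘(ℝ, E) 𝓘(ℝ, E) φ x u) (mfderiv 𝓘(ℝ, E) 𝓘(ℝ, E) φ x v) = form x u v

end Defs

/-- A symplectic manifold without boundary: a Hausdorff, σ-compact smooth manifold `M`, modelled on
a finite-dimensional real vector space `E`, with a non-degenerate, smooth and closed 2-form. -/
structure SymplecticManifold where
  /-- the model vector space -/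
  E : Type
  [instE₁ : NormedAddCommGroup E]
  [instE₂ : NormedSpace ℝ E]
  [instE₃ : FiniteDimensional ℝ E]
  /-- the manifold -/
  M : Type
  [instM₁ : TopologicalSpace M]
  [instM₂ : ChartedSpace E M]
  [instM₃ : IsManifold 𝓘(ℝ, E) ∞ M]
  [instM₄ : T2Space M]
  [instM₅ : SigmaCompactSpace M]
  /-- the symplectic form -/
  form : FormField E M
  alternating : Alternating form
  nondegenerate : Nondegenerate form
  smooth : Smooth form
  closed : Closed form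

attribute [instance] SymplecticManifold.instE₁ SymplecticManifold.instE₂ SymplecticManifold.instE₃
  SymplecticManifold.instM₁ SymplecticManifold.instM₂ SymplecticManifold.instM₃
  SymplecticManifold.instM₄ SymplecticManifold.instM₅

/-- The smooth diffeomorphisms of the manifold `X`. -/
abbrev Diff (X : SymplecticManifold) : Type := X.M ≃ₘ⟮𝓘(ℝ, X.E), 𝓘(ℝ, X.E)⟯ X.M

/-- `Symp_c(M, ω)`: the set of the smooth diffeomorphisms `φ` of `M` whose support (the closure of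
the set of the points that `φ` moves) is compact and that satisfy `φ^* ω = ω`. -/
def Sympc (X : SymplecticManifold) : Set (Diff X) :=
  {φ | IsCompact (closure {x | φ x ≠ x}) ∧ Preserves X.form φ}

/-- The map `(t, x) ↦ Φ t x` is smooth. -/
def SmoothPath (X : SymplecticManifold) (Φ : ℝ → Sympc X) : Prop :=
  ContMDiff (𝓘(ℝ, ℝ).prod 𝓘(ℝ, X.E)) 𝓘(ℝ, X.E) ∞ (fun p : ℝ × X.M => (Φ p.1).1 p.2)

/-- `Symp_{c,0}(M, ω)`: the elements of `Symp_c(M, ω)` that can be joined to the identity by a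
smooth path of elements of `Symp_c(M, ω)` that are all the identity outside one fixed compact
set `K`. (A smooth path defined on `[0, 1]` becomes, after a smooth change of parameter, one that is
defined on all of `ℝ`.) -/
def Sympc0 (X : SymplecticManifold) : Set (Sympc X) :=
  {φ | ∃ K : Set X.M, IsCompact K ∧ ∃ Φ : ℝ → Sympc X, SmoothPath X Φ ∧
    (∀ t, ∀ x ∉ K, (Φ t).1 x = x) ∧ (∀ x, (Φ 0).1 x = x) ∧ Φ 1 = φ}

/-- An element of `Symp_c(M, ω)` as a continuous map. -/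
def toContinuousMap (X : SymplecticManifold) (φ : Sympc X) : C(X.M, X.M) :=
  ⟨φ.1, φ.1.continuous⟩

/-- The `C^0`-topology on `Symp_c(M, ω)`: the compact-open topology, that is, the topology of
uniform convergence on compact subsets of `M`. -/
@[reducible] def C0Topology (X : SymplecticManifold) : TopologicalSpace (Sympc X) :=
  TopologicalSpace.induced (toContinuousMap X) ContinuousMap.compactOpen

/-! ## Symplectic vector spaces -/

section VectorSpace

variable {E : Type} [NormedAddCommGroup E] [NormedSpace ℝ E] [FiniteDimensional ℝ E]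

omit [FiniteDimensional ℝ E] in
lemma localForm_const (ω₀ : E →L[ℝ] E →L[ℝ] ℝ) (x₀ : E) (y : E) :
    localForm (E := E) (M := E) (fun _ => ω₀) x₀ y = ω₀ := by
  ext u v
  simp only [localForm, dChartSymm]
  have h : mfderiv 𝓘(ℝ, E) 𝓘(ℝ, E) (extChartAt 𝓘(ℝ, E) x₀).symm y
      = ContinuousLinearMap.id ℝ E := by
    rw [mfderiv_eq_fderiv]
    simp only [extChartAt_model_space_eq_id, PartialEquiv.refl_symm, PartialEquiv.refl_coe]
    exact fderiv_id
  rw [h]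
  rfl

/-- A finite-dimensional real vector space `E` with a non-degenerate alternating bilinear form `ω₀`,
as a symplectic manifold. -/
def vectorSpace (ω₀ : E →L[ℝ] E →L[ℝ] ℝ) (h₁ : ∀ v, ω₀ v v = 0)
    (h₂ : ∀ v, (∀ w, ω₀ v w = 0) → v = 0) : SymplecticManifold where
  E := E
  M := E
  form := fun _ => ω₀
  alternating := fun _ v => h₁ v
  nondegenerate := fun _ v h => h₂ v h
  smooth := by
    intro x₀
    refine (contDiffOn_const (c := ω₀)).congr ?_
    intro y _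
    exact localForm_const ω₀ x₀ y
  closed := by
    intro x₀ y _ u v w
    have h : fderiv ℝ (localForm (E := E) (M := E) (fun _ => ω₀) x₀) y = 0 := by
      have h1 : localForm (E := E) (M := E) (fun _ => ω₀) x₀ = fun _ => ω₀ :=
        funext (localForm_const ω₀ x₀)
      rw [h1]
      exact fderiv_const_apply _
    rw [h]
    simp

/-! ## Conjugation by dilations -/

/-- `Φ s x = φ (s • φ⁻¹ (s⁻¹ • x))` for `s ≠ 0`. -/
def dil (φ : E ≃ₘ⟮𝓘(ℝ, E), 𝓘(ℝ, E)⟯ E) (s : ℝ) (hs : s ≠ 0) :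
    E ≃ₘ⟮𝓘(ℝ, E), 𝓘(ℝ, E)⟯ E where
  toFun := fun x => φ (s • φ.symm (s⁻¹ • x))
  invFun := fun x => s • φ (s⁻¹ • φ.symm x)
  left_inv := by
    intro x
    simp only [φ.symm_apply_apply, smul_smul, inv_mul_cancel₀ hs, one_smul, φ.apply_symm_apply,
      mul_inv_cancel₀ hs]
  right_inv := by
    intro x
    simp only [smul_smul, inv_mul_cancel₀ hs, one_smul, φ.symm_apply_apply, mul_inv_cancel₀ hs,
      φ.apply_symm_apply]
  contMDiff_toFun := by
    have h1 : ContDiff ℝ ∞ φ := φ.contDiff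
    have h2 : ContDiff ℝ ∞ φ.symm := φ.symm.contDiff
    apply ContDiff.contMDiff
    exact h1.comp (contDiff_const.smul (h2.comp (contDiff_const.smul contDiff_id)))
  contMDiff_invFun := by
    have h1 : ContDiff ℝ ∞ φ := φ.contDiff
    have h2 : ContDiff ℝ ∞ φ.symm := φ.symm.contDiff
    apply ContDiff.contMDiff
    exact contDiff_const.smul (h1.comp (contDiff_const.smul h2))

omit [FiniteDimensional ℝ E] in
lemma dil_apply (φ : E ≃ₘ⟮𝓘(ℝ, E), 𝓘(ℝ, E)⟯ E) (s : ℝ) (hs : s ≠ 0) (x : E) :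
    dil φ s hs x = φ (s • φ.symm (s⁻¹ • x)) := rfl

omit [FiniteDimensional ℝ E] in
lemma preserves_iff (ω₀ : E →L[ℝ] E →L[ℝ] ℝ) (f : E → E) :
    Preserves (E := E) (M := E) (fun _ => ω₀) f ↔
      ∀ x u v, ω₀ (fderiv ℝ f x u) (fderiv ℝ f x v) = ω₀ u v := by
  unfold Preserves
  simp only [mfderiv_eq_fderiv]
  rfl

omit [FiniteDimensional ℝ E] in
lemma preserves_dil (ω₀ : E →L[ℝ] E →L[ℝ] ℝ) (φ : E ≃ₘ⟮𝓘(ℝ, E), 𝓘(ℝ, E)⟯ E)
    (h : Preserves (E := E) (M := E) (fun _ => ω₀) φ) (s : ℝ) (hs : s ≠ 0) :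
    Preserves (E := E) (M := E) (fun _ => ω₀) (dil φ s hs) := by
  rw [preserves_iff] at h ⊢
  intro x u v
  have h1 : Differentiable ℝ φ := φ.contDiff.differentiable (by simp)
  have h2 : Differentiable ℝ φ.symm := φ.symm.contDiff.differentiable (by simp)
  -- the derivative of the inverse
  have hinv : ∀ (y w : E), fderiv ℝ φ (φ.symm y) (fderiv ℝ φ.symm y w) = w := by
    intro y w
    have h3 : HasFDerivAt (φ ∘ φ.symm) ((fderiv ℝ φ (φ.symm y)).comp (fderiv ℝ φ.symm y)) y :=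
      (h1 _).hasFDerivAt.comp y (h2 _).hasFDerivAt
    have h4 : (φ ∘ φ.symm : E → E) = id := by
      ext z; simp
    rw [h4] at h3
    have h5 := h3.unique (hasFDerivAt_id y)
    have := congrArg (fun L : E →L[ℝ] E => L w) h5
    simpa using this
  have hinv2 : ∀ (y a b : E), ω₀ (fderiv ℝ φ.symm y a) (fderiv ℝ φ.symm y b) = ω₀ a b := by
    intro y a b
    rw [← h (φ.symm y), hinv, hinv]
  have hd : HasFDerivAt (dil φ s hs)
      ((fderiv ℝ φ (s • φ.symm (s⁻¹ • x))).comp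
        (s • ((fderiv ℝ φ.symm (s⁻¹ • x)).comp (s⁻¹ • ContinuousLinearMap.id ℝ E)))) x := by
    have h5 : HasFDerivAt (fun x : E => s⁻¹ • x) (s⁻¹ • ContinuousLinearMap.id ℝ E) x :=
      (hasFDerivAt_id x).const_smul s⁻¹
    have h6 : HasFDerivAt (fun x : E => φ.symm (s⁻¹ • x))
        ((fderiv ℝ φ.symm (s⁻¹ • x)).comp (s⁻¹ • ContinuousLinearMap.id ℝ E)) x :=
      (h2 (s⁻¹ • x)).hasFDerivAt.comp x h5
    exact (h1 _).hasFDerivAt.comp x (h6.const_smul s)
  rw [hd.fderiv]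
  simp only [ContinuousLinearMap.comp_apply, smul_apply, ContinuousLinearMap.id_apply, map_smul,
    smul_eq_mul]
  rw [h, hinv2]
  field_simp

/-- The bounded scale function: `scale r 0 = 1`, `scale r 1 = r` and `r ≤ scale r t ≤ 1`. -/
def scale (r t : ℝ) : ℝ := 1 - (1 - r) * Real.smoothTransition t

lemma scale_pos {r : ℝ} (hr : 0 < r) (hr1 : r ≤ 1) (t : ℝ) : 0 < scale r t := by
  have h1 := Real.smoothTransition.le_one t
  have h2 := Real.smoothTransition.nonneg t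
  unfold scale
  nlinarith

lemma scale_le {r : ℝ} (hr1 : r ≤ 1) (t : ℝ) : scale r t ≤ 1 := by
  have h2 := Real.smoothTransition.nonneg t
  unfold scale
  nlinarith

lemma scale_zero (r : ℝ) : scale r 0 = 1 := by
  rw [scale, Real.smoothTransition.zero_of_nonpos le_rfl]; ring

lemma scale_one (r : ℝ) : scale r 1 = r := by
  rw [scale, Real.smoothTransition.one_of_one_le le_rfl]; ring

lemma contDiff_scale (r : ℝ) : ContDiff ℝ ∞ (scale r) :=
  contDiff_const.sub (contDiff_const.mul Real.smoothTransition.contDiff)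

variable (ω₀ : E →L[ℝ] E →L[ℝ] ℝ) (h₁ : ∀ v, ω₀ v v = 0) (h₂ : ∀ v, (∀ w, ω₀ v w = 0) → v = 0)

/-- An element of `Symp_c` as a diffeomorphism of the vector space. -/
def toD (φ : Sympc (vectorSpace ω₀ h₁ h₂)) : E ≃ₘ⟮𝓘(ℝ, E), 𝓘(ℝ, E)⟯ E := φ.1

lemma toD_preserves (φ : Sympc (vectorSpace ω₀ h₁ h₂)) :
    Preserves (E := E) (M := E) (fun _ => ω₀) (toD ω₀ h₁ h₂ φ) := φ.2.2

/-- the support is in a ball -/
lemma exists_radius (φ : Sympc (vectorSpace ω₀ h₁ h₂)) :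
    ∃ R : ℝ, 0 < R ∧ ∀ x : E, R < ‖x‖ → toD ω₀ h₁ h₂ φ x = x := by
  obtain ⟨R, hR⟩ := (IsCompact.isBounded (α := E) φ.2.1).exists_norm_le
  refine ⟨max R 1, by positivity, fun x hx => ?_⟩
  by_contra hne
  have h3 : x ∈ closure {x | toD ω₀ h₁ h₂ φ x ≠ x} := subset_closure hne
  have := hR x h3
  have := le_max_left R 1
  linarith

omit [FiniteDimensional ℝ E] in
lemma dil_eq_self {φ : E ≃ₘ⟮𝓘(ℝ, E), 𝓘(ℝ, E)⟯ E} {R : ℝ}
    (h : ∀ x : E, R < ‖x‖ → φ x = x) {s : ℝ} (hs : 0 < s) (hs1 : s ≤ 1) (x : E) (hx : R < ‖x‖) :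
    dil φ s hs.ne' x = x := by
  have h3 : R < ‖s⁻¹ • x‖ := by
    rw [norm_smul, norm_inv, Real.norm_of_nonneg hs.le]
    have : 1 ≤ s⁻¹ := (one_le_inv₀ hs).mpr hs1
    nlinarith [norm_nonneg x]
  have h4 : φ.symm (s⁻¹ • x) = s⁻¹ • x := by
    conv_lhs => rw [← h _ h3]
    exact φ.symm_apply_apply _
  rw [dil_apply, h4, smul_smul, mul_inv_cancel₀ hs.ne', one_smul, h x hx]

omit [FiniteDimensional ℝ E] in
lemma support_dil {φ : E ≃ₘ⟮𝓘(ℝ, E), 𝓘(ℝ, E)⟯ E} {R : ℝ}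
    (h : ∀ x : E, R < ‖x‖ → φ x = x) {s : ℝ} (hs : 0 < s) (hs1 : s ≤ 1) :
    {x : E | dil φ s hs.ne' x ≠ x} ⊆ Metric.closedBall (0 : E) R := by
  intro x hx
  by_contra hx2
  rw [mem_closedBall_zero_iff, not_le] at hx2
  exact hx (dil_eq_self h hs hs1 x hx2)

lemma isCompact_dil {φ : E ≃ₘ⟮𝓘(ℝ, E), 𝓘(ℝ, E)⟯ E} {R : ℝ}
    (h : ∀ x : E, R < ‖x‖ → φ x = x) {s : ℝ} (hs : 0 < s) (hs1 : s ≤ 1) :
    IsCompact (closure {x : E | dil φ s hs.ne' x ≠ x}) :=
  IsCompact.of_isClosed_subset (isCompact_closedBall (0 : E) R) isClosed_closure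
    (closure_minimal (support_dil h hs hs1) Metric.isClosed_closedBall)

/-- The path from the identity to the approximation. -/
def path (φ : Sympc (vectorSpace ω₀ h₁ h₂)) (r : ℝ) (hr : 0 < r) (hr1 : r ≤ 1) (t : ℝ) :
    Sympc (vectorSpace ω₀ h₁ h₂) :=
  ⟨dil (toD ω₀ h₁ h₂ φ) (scale r t) (scale_pos hr hr1 t).ne', by
    obtain ⟨R, hR, hR2⟩ := exists_radius ω₀ h₁ h₂ φ
    exact ⟨isCompact_dil hR2 (scale_pos hr hr1 t) (scale_le hr1 t),
      preserves_dil ω₀ _ (toD_preserves ω₀ h₁ h₂ φ) _ _⟩⟩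

lemma path_apply (φ : Sympc (vectorSpace ω₀ h₁ h₂)) (r : ℝ) (hr : 0 < r) (hr1 : r ≤ 1) (t : ℝ)
    (x : E) : toD ω₀ h₁ h₂ (path ω₀ h₁ h₂ φ r hr hr1 t) x =
      toD ω₀ h₁ h₂ φ (scale r t • (toD ω₀ h₁ h₂ φ).symm ((scale r t)⁻¹ • x)) := rfl

lemma path_mem (φ : Sympc (vectorSpace ω₀ h₁ h₂)) (r : ℝ) (hr : 0 < r) (hr1 : r ≤ 1) :
    path ω₀ h₁ h₂ φ r hr hr1 1 ∈ Sympc0 (vectorSpace ω₀ h₁ h₂) := by
  obtain ⟨R, hR, hR2⟩ := exists_radius ω₀ h₁ h₂ φ
  have hball := isCompact_closedBall (0 : E) R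
  refine ⟨(Metric.closedBall (0 : E) R : Set E), hball,
    path ω₀ h₁ h₂ φ r hr hr1, ?_, ?_, ?_, rfl⟩
  · change ContMDiff (𝓘(ℝ, ℝ).prod 𝓘(ℝ, E)) 𝓘(ℝ, E) ∞
      (fun p : ℝ × E => toD ω₀ h₁ h₂ φ
        (scale r p.1 • (toD ω₀ h₁ h₂ φ).symm ((scale r p.1)⁻¹ • p.2)))
    have h3 : ContDiff ℝ ∞ (toD ω₀ h₁ h₂ φ) := (toD ω₀ h₁ h₂ φ).contDiff
    have h4 : ContDiff ℝ ∞ (toD ω₀ h₁ h₂ φ).symm := (toD ω₀ h₁ h₂ φ).symm.contDiff
    have h5 : ContDiff ℝ ∞ (fun p : ℝ × E => scale r p.1) := (contDiff_scale r).comp contDiff_fst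
    have h6 : ContDiff ℝ ∞ (fun p : ℝ × E => (scale r p.1)⁻¹) :=
      h5.inv fun p => (scale_pos hr hr1 p.1).ne'
    have h7 : ContDiff ℝ ∞ (fun p : ℝ × E => toD ω₀ h₁ h₂ φ
        (scale r p.1 • (toD ω₀ h₁ h₂ φ).symm ((scale r p.1)⁻¹ • p.2))) :=
      h3.comp (h5.smul (h4.comp (h6.smul contDiff_snd)))
    have h8 : ContMDiff (𝓘(ℝ, ℝ).prod 𝓘(ℝ, E)) 𝓘(ℝ, ℝ × E) ∞
        (fun p : ℝ × E => (p.1, p.2)) := contMDiff_fst.prodMk_space contMDiff_snd
    exact h7.comp_contMDiff h8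
  · intro t (x : E) hx
    have hx2 : R < ‖x‖ := by
      by_contra h3
      exact hx (mem_closedBall_zero_iff.mpr (not_lt.mp h3))
    exact dil_eq_self hR2 (scale_pos hr hr1 t) (scale_le hr1 t) x hx2
  · intro (x : E)
    change toD ω₀ h₁ h₂ (path ω₀ h₁ h₂ φ r hr hr1 0) x = x
    rw [path_apply, scale_zero]
    simp

lemma path_one (φ : Sympc (vectorSpace ω₀ h₁ h₂)) (r : ℝ) (hr : 0 < r) (hr1 : r ≤ 1)
    (x : E) : toD ω₀ h₁ h₂ (path ω₀ h₁ h₂ φ r hr hr1 1) x =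
      toD ω₀ h₁ h₂ φ (r • (toD ω₀ h₁ h₂ φ).symm (r⁻¹ • x)) := by
  rw [path_apply, scale_one]

/-- `φ⁻¹` has bounded displacement. -/
lemma exists_bound (φ : Sympc (vectorSpace ω₀ h₁ h₂)) :
    ∃ C : ℝ, 0 < C ∧ ∀ x : E, ‖(toD ω₀ h₁ h₂ φ).symm x - x‖ ≤ C := by
  obtain ⟨R, hR, hR2⟩ := exists_radius ω₀ h₁ h₂ φ
  obtain ⟨C, hC⟩ := (isCompact_closedBall (0 : E) R).exists_bound_of_continuousOn
    (f := fun x => (toD ω₀ h₁ h₂ φ).symm x - x)
    (((toD ω₀ h₁ h₂ φ).symm.continuous.sub continuous_id).continuousOn)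
  refine ⟨max C 1, by positivity, fun x => ?_⟩
  by_cases hx : x ∈ Metric.closedBall (0 : E) R
  · exact (hC x hx).trans (le_max_left _ _)
  · have hx2 : R < ‖x‖ := by
      by_contra h3
      exact hx (mem_closedBall_zero_iff.mpr (not_lt.mp h3))
    have h4 : (toD ω₀ h₁ h₂ φ).symm x = x := by
      conv_lhs => rw [← hR2 _ hx2]
      exact (toD ω₀ h₁ h₂ φ).symm_apply_apply _
    rw [h4, sub_self, norm_zero]
    positivity

/-- `φ` is uniformly continuous. -/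
lemma uniformContinuous_toD (φ : Sympc (vectorSpace ω₀ h₁ h₂)) :
    UniformContinuous (toD ω₀ h₁ h₂ φ) := by
  obtain ⟨R, hR, hR2⟩ := exists_radius ω₀ h₁ h₂ φ
  have h3 : UniformContinuous fun x => toD ω₀ h₁ h₂ φ x - x := by
    refine HasCompactSupport.uniformContinuous_of_continuous ?_
      ((toD ω₀ h₁ h₂ φ).continuous.sub continuous_id)
    · apply HasCompactSupport.intro (isCompact_closedBall (0 : E) R)
      intro x hx
      have hx2 : R < ‖x‖ := by
        by_contra h3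
        exact hx (mem_closedBall_zero_iff.mpr (not_lt.mp h3))
      rw [hR2 x hx2, sub_self]
  have h4 := h3.add uniformContinuous_id
  simpa using h4

lemma tendstoUniformly_path (φ : Sympc (vectorSpace ω₀ h₁ h₂)) (r : ℕ → ℝ) (hr : ∀ k, 0 < r k)
    (hr1 : ∀ k, r k ≤ 1) (hlim : Filter.Tendsto r Filter.atTop (𝓝 0)) :
    TendstoUniformly (fun k x => toD ω₀ h₁ h₂ (path ω₀ h₁ h₂ φ (r k) (hr k) (hr1 k) 1) x)
      (toD ω₀ h₁ h₂ φ) Filter.atTop := by
  rw [Metric.tendstoUniformly_iff]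
  intro ε hε
  obtain ⟨δ, hδ, hδ2⟩ := Metric.uniformContinuous_iff.mp (uniformContinuous_toD ω₀ h₁ h₂ φ) ε hε
  obtain ⟨C, hC, hC2⟩ := exists_bound ω₀ h₁ h₂ φ
  have h3 : ∀ᶠ k in Filter.atTop, r k < δ / C := hlim.eventually_lt_const (by positivity)
  filter_upwards [h3] with k hk x
  rw [path_one]
  apply hδ2
  rw [dist_comm, dist_eq_norm]
  have h4 : r k • (toD ω₀ h₁ h₂ φ).symm ((r k)⁻¹ • x) - x
      = r k • ((toD ω₀ h₁ h₂ φ).symm ((r k)⁻¹ • x) - (r k)⁻¹ • x) := by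
    rw [smul_sub, smul_smul, mul_inv_cancel₀ (hr k).ne', one_smul]
  rw [h4, norm_smul, Real.norm_of_nonneg (hr k).le]
  have h5 := hC2 ((r k)⁻¹ • x)
  have h6 : r k * C < δ := by
    rwa [lt_div_iff₀ hC] at hk
  have h7 := mul_le_mul_of_nonneg_left h5 (hr k).le
  linarith

/-- **Theorem.** Let `(E, ω₀)` be a symplectic vector space.
(a) Every `φ` in `Symp_c(E, ω₀)` is the limit, uniformly on `E`, of a sequence of elements `ψ k` of
`Symp_{c,0}(E, ω₀)` whose supports all lie in one compact set.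
(b) Therefore `Symp_{c,0}(E, ω₀)` is `C^0`-closed in `Symp_c(E, ω₀)` if and only if the two groups
are equal. -/
theorem result (E : Type) [NormedAddCommGroup E] [NormedSpace ℝ E] [FiniteDimensional ℝ E]
    (ω₀ : E →L[ℝ] E →L[ℝ] ℝ) (h₁ : ∀ v, ω₀ v v = 0) (h₂ : ∀ v, (∀ w, ω₀ v w = 0) → v = 0) :
    (∀ φ : Sympc (vectorSpace ω₀ h₁ h₂), ∃ K : Set E, IsCompact K ∧
      ∃ ψ : ℕ → Sympc (vectorSpace ω₀ h₁ h₂), (∀ k, ψ k ∈ Sympc0 (vectorSpace ω₀ h₁ h₂)) ∧
        (∀ k, ∀ x ∉ K, toD ω₀ h₁ h₂ (ψ k) x = x) ∧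
        TendstoUniformly (fun k x => toD ω₀ h₁ h₂ (ψ k) x) (toD ω₀ h₁ h₂ φ) Filter.atTop) ∧
    (IsClosed[C0Topology (vectorSpace ω₀ h₁ h₂)] (Sympc0 (vectorSpace ω₀ h₁ h₂)) ↔
      Sympc0 (vectorSpace ω₀ h₁ h₂) = Set.univ) := by
  have ha : ∀ φ : Sympc (vectorSpace ω₀ h₁ h₂), ∃ K : Set E, IsCompact K ∧
      ∃ ψ : ℕ → Sympc (vectorSpace ω₀ h₁ h₂), (∀ k, ψ k ∈ Sympc0 (vectorSpace ω₀ h₁ h₂)) ∧
        (∀ k, ∀ x ∉ K, toD ω₀ h₁ h₂ (ψ k) x = x) ∧
        TendstoUniformly (fun k x => toD ω₀ h₁ h₂ (ψ k) x) (toD ω₀ h₁ h₂ φ) Filter.atTop := by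
    intro φ
    obtain ⟨R, hR, hR2⟩ := exists_radius ω₀ h₁ h₂ φ
    have hr : ∀ k : ℕ, 0 < 1 / ((k : ℝ) + 1) := fun k => by positivity
    have hr1 : ∀ k : ℕ, 1 / ((k : ℝ) + 1) ≤ 1 := fun k => by
      rw [div_le_one (by positivity)]
      have : (0 : ℝ) ≤ k := Nat.cast_nonneg k
      linarith
    refine ⟨Metric.closedBall (0 : E) R, isCompact_closedBall (0 : E) R,
      fun k => path ω₀ h₁ h₂ φ _ (hr k) (hr1 k) 1, fun k => path_mem _ _ _ _ _ _ _, ?_,
      tendstoUniformly_path ω₀ h₁ h₂ φ _ hr hr1 tendsto_one_div_add_atTop_nhds_zero_nat⟩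
    intro k x hx
    have hx2 : R < ‖x‖ := by
      by_contra h3
      exact hx (mem_closedBall_zero_iff.mpr (not_lt.mp h3))
    exact dil_eq_self hR2 (scale_pos (hr k) (hr1 k) 1) (scale_le (hr1 k) 1) x hx2
  refine ⟨ha, ?_, ?_⟩
  · intro hcl
    rw [Set.eq_univ_iff_forall]
    intro φ
    obtain ⟨K, -, ψ, hψ, -, hlim⟩ := ha φ
    let := C0Topology (vectorSpace ω₀ h₁ h₂)
    refine IsClosed.mem_of_tendsto (f := ψ) (b := Filter.atTop) hcl ?_
      (Filter.Eventually.of_forall hψ)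
    rw [nhds_induced, Filter.tendsto_comap_iff]
    have h3 : Filter.Tendsto (fun k => (⟨toD ω₀ h₁ h₂ (ψ k),
        (toD ω₀ h₁ h₂ (ψ k)).continuous⟩ : C(E, E))) Filter.atTop
        (𝓝 ⟨toD ω₀ h₁ h₂ φ, (toD ω₀ h₁ h₂ φ).continuous⟩) :=
      ContinuousMap.tendsto_of_tendstoLocallyUniformly hlim.tendstoLocallyUniformly
    exact h3
  · intro h
    rw [h]
    exact @isClosed_univ _ (C0Topology (vectorSpace ω₀ h₁ h₂))

end VectorSpace

end Pool.Agent.Results.MP_2dff6e_gt.VectorSpaceDense
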